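import Pool.Agent.helper99.PLR.Spec
import Pool.Agent.helper25.HQ.LOC

/-!
# Project plr, row LCW: localisation at one set
-/

set_option autoImplicit false

open scoped Classical

namespace Pool.Agent.PLR

open Finset
open Pool.Agent.helper65.HC (V IsEig IsTop lam)
open Pool.Agent.helper9.HQ (Fam Dn E N Le Eig lk)
open Pool.Agent.helper9.HX (Ef)
open Pool.Agent.helper9.HLR (cel Lc)
open Pool.Agent.helper9.HQ (LOC_X LOC_q LOC_T LOC_first LOC_up LOC_cs LOC_q_nonneg)

noncomputable section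

theorem LCW_mq {d : ℕ} (U : Fam d) (f : Finset (Fin d) → ℝ) (w : Finset (Fin d)) :
    mq U f w = LOC_q U f w := rfl

/-- the members of the cell of `w` correspond to the members which contain `w` -/
theorem LCW_sum {d : ℕ} (U : Fam d) (w : Finset (Fin d)) (F : Finset (Fin d) → ℝ) :
    ∑ y ∈ Lc w w U, F (y ∪ w) = ∑ x ∈ LOC_X U w, F x := by
  refine Finset.sum_nbij' (fun y => y ∪ w) (fun x => x \ w) ?_ ?_ ?_ ?_ ?_
  · intro y hy
    unfold Lc at hy
    rw [mem_filter] at hy
    unfold LOC_X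
    rw [mem_filter]
    exact ⟨hy.2.2, subset_union_right⟩
  · intro x hx
    unfold LOC_X at hx
    rw [mem_filter] at hx
    unfold Lc
    rw [mem_filter]
    refine ⟨mem_univ _, sdiff_disjoint, ?_⟩
    rw [sdiff_union_of_subset hx.2]
    exact hx.1
  · intro y hy
    unfold Lc at hy
    rw [mem_filter] at hy
    rw [union_sdiff_right]
    exact sdiff_eq_self_of_disjoint hy.2.1
  · intro x hx
    unfold LOC_X at hx
    rw [mem_filter] at hx
    exact sdiff_union_of_subset hx.2
  · intro y _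
    rfl

theorem LCW_cell {d : ℕ} (U : Fam d) (f : Finset (Fin d) → ℝ) (L : ℝ) (w : Finset (Fin d))
    (hL : Le (Lc w w U) L) :
    2 * ∑ y ∈ LOC_X U w, LOC_T f w y ≤ L * LOC_q U f w := by
  have h1 := hL (fun y => f (y ∪ w))
  have hN : N (Lc w w U) (fun y => f (y ∪ w)) = LOC_q U f w := by
    unfold N LOC_q
    exact LCW_sum U w (fun x => f x ^ 2)
  have hE : E (Lc w w U) (fun y => f (y ∪ w)) = 2 * ∑ y ∈ LOC_X U w, LOC_T f w y := by
    unfold E
    rw [← LCW_sum U w (fun x => LOC_T f w x)]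
    congr 1
    refine Finset.sum_congr rfl fun y hy => ?_
    unfold Lc at hy
    rw [mem_filter] at hy
    have hdj : Disjoint y w := hy.2.1
    unfold LOC_T
    have h2 : (y ∪ w) \ w = y := by
      rw [union_sdiff_right]
      exact sdiff_eq_self_of_disjoint hdj
    rw [h2]
    refine Finset.sum_congr rfl fun j hj => ?_
    have hjw : j ∉ w := fun e => (Finset.disjoint_left.1 hdj hj) e
    have h3 : y.erase j ∪ w = (y ∪ w).erase j := by
      rw [erase_union_distrib, erase_eq_of_notMem hjw]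
    dsimp only
    rw [h3]
  rw [hN, hE] at h1
  exact h1

theorem LCW : LCW_stmt := by
  intro d U l L f w hU hE hw hL
  rw [LCW_mq]
  have hR : ∑ i ∈ w, √(mq U f (w.erase i)) = ∑ i ∈ w, √(LOC_q U f (w.erase i)) := rfl
  rw [hR]
  have hfirst : 2 * ∑ y ∈ LOC_X U w, LOC_T f w y ≤ L * LOC_q U f w := by
    rcases hL with ⟨i, hi, hLi⟩ | hLc
    · exact LOC_first U hU f L w i hi hLi
    · exact LCW_cell U f L w hLc
  set n : ℝ := √(LOC_q U f w) with hn
  have hnn : n ^ 2 = LOC_q U f w := Real.sq_sqrt (LOC_q_nonneg U f w)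
  have hn0 : 0 ≤ n := Real.sqrt_nonneg _
  have hid : l * LOC_q U f w = 2 * ∑ y ∈ LOC_X U w, LOC_T f w y +
      ∑ i ∈ w, ∑ x ∈ LOC_X U w, f x * f (x.erase i) := by
    have h1 : l * LOC_q U f w = ∑ x ∈ LOC_X U w, (LOC_T f w x +
        ∑ i ∈ w, f x * f (x.erase i) +
        ∑ i ∈ univ.filter (fun i => i ∉ x ∧ insert i x ∈ U), f x * f (insert i x)) := by
      unfold LOC_q
      rw [mul_sum]
      refine Finset.sum_congr rfl fun x hx => ?_
      have hx' : x ∈ U ∧ w ⊆ x := by
        unfold LOC_X at hx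
        exact mem_filter.1 hx
      have h2 := hE.eq x hx'.1
      have h3 : ∑ i ∈ x, f (x.erase i) = ∑ i ∈ x \ w, f (x.erase i) + ∑ i ∈ w, f (x.erase i) :=
        (Finset.sum_sdiff hx'.2).symm
      rw [h3] at h2
      unfold LOC_T
      rw [← mul_sum, ← mul_sum, ← mul_sum, ← mul_add, ← mul_add, ← h2]
      ring
    rw [h1, Finset.sum_add_distrib, Finset.sum_add_distrib, LOC_up U hU f w,
      Finset.sum_comm (s := LOC_X U w) (t := w)]
    ring
  have hsec : ∑ i ∈ w, ∑ x ∈ LOC_X U w, f x * f (x.erase i) ≤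
      n * ∑ i ∈ w, √(LOC_q U f (w.erase i)) := by
    rw [mul_sum]
    exact Finset.sum_le_sum fun i hi => LOC_cs U hU f w i hi
  have hmain : (l - L) * n ^ 2 ≤ n * ∑ i ∈ w, √(LOC_q U f (w.erase i)) := by
    rw [hnn]
    nlinarith
  rcases hn0.lt_or_eq with hpos | hzero
  · have h4 : n * ((l - L) * n) ≤ n * ∑ i ∈ w, √(LOC_q U f (w.erase i)) := by
      calc n * ((l - L) * n) = (l - L) * n ^ 2 := by ring
        _ ≤ _ := hmain
    exact le_of_mul_le_mul_left h4 hpos
  · rw [← hzero, mul_zero]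
    exact Finset.sum_nonneg fun _ _ => Real.sqrt_nonneg _

end

end Pool.Agent.PLR
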